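import Mathlib
import Pool.Agent.Helper428.John6

set_option autoImplicit false

namespace Pool.Agent.Results.MP_1fe18a_an.JohnLower67

/-- The John constant of the disc is at least `6.7`.
(1) Every holomorphic `f` on the unit disc with `0 < m ≤ |f'| ≤ M ≤ 6.7 m` is injective.
(2) Hence every least upper bound `γ` of the set of admissible ratios satisfies `6.7 ≤ γ`. -/
theorem result :
    (∀ f : ℂ → ℂ, DifferentiableOn ℂ f (Metric.ball (0 : ℂ) 1) →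
      ∀ m M : ℝ, 0 < m →
        (∀ z ∈ Metric.ball (0 : ℂ) 1, m ≤ ‖deriv f z‖ ∧ ‖deriv f z‖ ≤ M) →
        M ≤ (67 / 10 : ℝ) * m → Set.InjOn f (Metric.ball (0 : ℂ) 1)) ∧
    (∀ γ : ℝ, IsLUB {g : ℝ | ∀ f : ℂ → ℂ, DifferentiableOn ℂ f (Metric.ball (0 : ℂ) 1) →
          ∀ m M : ℝ, 0 < m →
            (∀ z ∈ Metric.ball (0 : ℂ) 1, m ≤ ‖deriv f z‖ ∧ ‖deriv f z‖ ≤ M) →
            M ≤ g * m → Set.InjOn f (Metric.ball (0 : ℂ) 1)} γ →
      (67 / 10 : ℝ) ≤ γ) := by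
  have h1 : ∀ f : ℂ → ℂ, DifferentiableOn ℂ f (Metric.ball (0 : ℂ) 1) →
      ∀ m M : ℝ, 0 < m →
        (∀ z ∈ Metric.ball (0 : ℂ) 1, m ≤ ‖deriv f z‖ ∧ ‖deriv f z‖ ≤ M) →
        M ≤ (67 / 10 : ℝ) * m → Set.InjOn f (Metric.ball (0 : ℂ) 1) :=
    fun f hf m M hm hb hM => Pool.Agent.Helper428.John.injOn_of_ratio f m M hf hm hb hM
  exact ⟨h1, fun γ hγ => hγ.1 h1⟩

end Pool.Agent.Results.MP_1fe18a_an.JohnLower67
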